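import Pool.Agent.Lib.MP_a9db68_al.Main

/-!
# The radical and the minimal primes of the homological shift ideals of `I(G)^k`

The definitions (edge ideal, Koszul complex, `Tor`, homological shift ideal, bipartite components)
are in `Pool/Agent/Lib/MP_a9db68_al/Defs.lean`.
-/

set_option autoImplicit false

namespace Pool.Agent.Results.MP_a9db68_al.MinimalPrimes

open Pool.Agent.Lib.MP_a9db68_al

/-- Let `K` be a field, `G` a graph on `n` vertices, `i ≥ 0` and `k ≥ max(1, i)`. The radical of
`HS_i(I(G)^k)` is the ideal generated by the squarefree monomials `∏_{v ∈ F} x_v` of the sets `F` of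
vertices with `|F| - (number of bipartite components of G[F]) ≥ i + 1`. So the minimal primes of
`HS_i(I(G)^k)` are the same for all `k ≥ max(1, i)`, and each of them is an associated prime of
`S / HS_i(I(G)^l)` for every `l ≥ max(1, i)`. -/
theorem result (K : Type*) [Field K] (n : ℕ) (G : SimpleGraph (Fin n)) (i k : ℕ)
    (hk : max 1 i ≤ k) : (HS i (edgeIdeal K G ^ k)).radical = sqIdeal K G i ∧
      ∀ l, max 1 i ≤ l →
        (HS i (edgeIdeal K G ^ k)).minimalPrimes = (HS i (edgeIdeal K G ^ l)).minimalPrimes ∧
        (HS i (edgeIdeal K G ^ k)).minimalPrimes ⊆ Ass (HS i (edgeIdeal K G ^ l)) :=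
  main K n G i k hk

end Pool.Agent.Results.MP_a9db68_al.MinimalPrimes
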